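import Pool.Agent.Y736.RN.A

set_option autoImplicit false

/-!
# Renormalization levels with bounds

Let `x_n = f_c^(n p)(0)`. A level of period `p` with the constants `C`, `r` is a bounded set `U` which
contains the discs of radius `r` about the `x_n` and is contained, together with its closure, in its
image under `f_c^p`, a set of diameter at most `C r`. This file: Lipschitz estimates at one level, the
size of the next level, and the control of the orbits of nearby parameters from level to level.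
-/

namespace Pool.Agent.H79RN

open Complex Filter Topology Set Metric
open Pool.Agent.H712R2 (P P_succ P_one P_zero fc continuous_P)
open Pool.Agent.Y736.RN

/-- a renormalization level with bounds -/
def Lv (d : ℕ) (c : ℂ) (p : ℕ) (C r : ℝ) : Prop :=
  ∃ U : Set ℂ, Bornology.IsBounded U ∧ closure U ⊆ (fc d c)^[p] '' U ∧ 0 < r ∧
    (∀ n : ℕ, ball (P d (n * p) c) r ⊆ U) ∧
    ∀ z ∈ U, ∀ z' ∈ U, ‖(fc d c)^[p] z - (fc d c)^[p] z'‖ ≤ C * r

variable {d : ℕ} {c : ℂ} {p : ℕ} {C r : ℝ}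

theorem Lv.pos (h : Lv d c p C r) : 0 < r := by
  obtain ⟨U, _, _, hr, _, _⟩ := h
  exact hr

theorem next (d n p : ℕ) (c : ℂ) : (fc d c)^[p] (P d (n * p) c) = P d ((n + 1) * p) c := by
  unfold P
  rw [← Function.iterate_add_apply]
  congr 1
  ring

/-- Lipschitz estimate near the points of the critical orbit -/
theorem Lv.lip (h : Lv d c p C r) (n : ℕ) {z : ℂ} (hz : ‖z - P d (n * p) c‖ < r) :
    ‖(fc d c)^[p] z - P d ((n + 1) * p) c‖ ≤ C * ‖z - P d (n * p) c‖ := by
  obtain ⟨U, _, _, hr, hball, hdiam⟩ := h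
  have h1 : MapsTo ((fc d c)^[p]) (ball (P d (n * p) c) r)
      (closedBall ((fc d c)^[p] (P d (n * p) c)) (C * r)) := by
    intro y hy
    rw [mem_closedBall, dist_eq_norm]
    exact hdiam y (hball n hy) _ (hball n (mem_ball_self hr))
  have h2 := Complex.dist_le_div_mul_dist_of_mapsTo_ball
    (diff_it_y d p c).differentiableOn h1 (z := z) (by rw [mem_ball, dist_eq_norm]; exact hz)
  rw [next, dist_eq_norm, dist_eq_norm, mul_div_assoc, div_self hr.ne', mul_one] at h2
  exact h2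

/-- second order estimate at the critical point -/
theorem Lv.quad (hd : 2 ≤ d) (hp : 1 ≤ p) (h : Lv d c p C r) {z : ℂ} (hz : ‖z‖ < r) :
    ‖(fc d c)^[p] z - P d p c‖ ≤ C * (‖z‖ ^ 2 / r) := by
  obtain ⟨U, _, _, hr, hball, hdiam⟩ := h
  have hb0 : ball (0 : ℂ) r ⊆ U := by
    have := hball 0
    rwa [Nat.zero_mul, P_zero] at this
  obtain ⟨q, hq⟩ : ∃ q, p = q + 1 := ⟨p - 1, by omega⟩
  have hd0 : d ≠ 0 := by omega
  have hf0 : ∀ y : ℂ, (fc d c)^[p] y = (fc d c)^[q] (fc d c y) := by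
    intro y
    rw [hq, Function.iterate_succ_apply]
  have hc0 : fc d c 0 = c := by simp [fc, hd0]
  have hP : P d p c = (fc d c)^[q] c := by
    have h1 := hf0 0
    rw [hc0] at h1
    exact h1
  have hrd : 0 < r ^ d := pow_pos hr d
  have h1 : MapsTo ((fc d c)^[q]) (ball c (r ^ d)) (closedBall ((fc d c)^[q] c) (C * r)) := by
    intro w hw
    obtain ⟨y, hy⟩ := IsAlgClosed.exists_pow_nat_eq (w - c) (n := d) (by omega)
    have hy1 : ‖y‖ < r := by
      rw [mem_ball, dist_eq_norm, ← hy, norm_pow] at hw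
      exact lt_of_pow_lt_pow_left₀ d hr.le hw
    have hy2 : fc d c y = w := by simp [fc, hy]
    rw [mem_closedBall, dist_eq_norm]
    have h2 := hdiam y (hb0 (mem_ball_zero_iff.2 hy1)) 0 (hb0 (mem_ball_self hr))
    rw [hf0, hf0, hy2, hc0] at h2
    exact h2
  have hz1 : fc d c z ∈ ball c (r ^ d) := by
    rw [mem_ball, dist_eq_norm]
    have h2 : fc d c z - c = z ^ d := by simp [fc]
    rw [h2, norm_pow]
    exact pow_lt_pow_left₀ hz (norm_nonneg z) hd0
  have h2 := Complex.dist_le_div_mul_dist_of_mapsTo_ball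
    (diff_it_y d q c).differentiableOn h1 hz1
  rw [dist_eq_norm, dist_eq_norm, ← hf0, ← hP] at h2
  have h3 : fc d c z - c = z ^ d := by simp [fc]
  rw [h3, norm_pow] at h2
  refine h2.trans ?_
  have hC0 : 0 ≤ C * r := by
    have := hdiam 0 (hb0 (mem_ball_self hr)) 0 (hb0 (mem_ball_self hr))
    rwa [sub_self, norm_zero] at this
  have hC : 0 ≤ C := nonneg_of_mul_nonneg_left hC0 hr
  obtain ⟨e, rfl⟩ : ∃ e, d = e + 2 := ⟨d - 2, by omega⟩
  have h4 : (‖z‖ / r) ^ e ≤ 1 := pow_le_one₀ (by positivity) ((div_le_one hr).2 hz.le)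
  calc C * r / r ^ (e + 2) * ‖z‖ ^ (e + 2) = C * (‖z‖ ^ 2 / r) * (‖z‖ / r) ^ e := by
        rw [div_pow]
        field_simp
        ring
    _ ≤ C * (‖z‖ ^ 2 / r) * 1 := by gcongr
    _ = _ := mul_one _

/-- the constant is at least two -/
theorem Lv.two_le (h : Lv d c p C r) : 2 ≤ C := by
  obtain ⟨U, _, hcl, hr, hball, hdiam⟩ := h
  have hb0 : ball (0 : ℂ) r ⊆ U := by
    have := hball 0
    rwa [Nat.zero_mul, P_zero] at this
  -- the image contains the closed disc
  have hcb : closedBall (0 : ℂ) r ⊆ (fc d c)^[p] '' U := by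
    refine Subset.trans ?_ hcl
    rw [← closure_ball (0 : ℂ) hr.ne']
    exact closure_mono hb0
  obtain ⟨a, ha, ha'⟩ := hcb (show (r : ℂ) ∈ closedBall (0 : ℂ) r by
    rw [mem_closedBall_zero_iff, Complex.norm_real, Real.norm_of_nonneg hr.le])
  obtain ⟨b, hb, hb'⟩ := hcb (show (-r : ℂ) ∈ closedBall (0 : ℂ) r by
    rw [mem_closedBall_zero_iff, norm_neg, Complex.norm_real, Real.norm_of_nonneg hr.le])
  have h1 := hdiam a ha b hb
  rw [ha', hb'] at h1
  have h2 : ‖(r : ℂ) - -r‖ = 2 * r := by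
    rw [sub_neg_eq_add, ← two_mul, norm_mul, Complex.norm_real, Real.norm_of_nonneg hr.le]
    simp
  rw [h2] at h1
  exact le_of_mul_le_mul_right h1 hr

/-- **The size of the next level.** -/
theorem Lv.size (hd : 2 ≤ d) (hp : 1 ≤ p) (h : Lv d c p C r) {m : ℕ} (hm : 1 ≤ m) {C' r' : ℝ}
    (h' : Lv d c (m * p) C' r') : r ≤ 2 * C' * C ^ m * r' := by
  have hC := h.two_le
  have hC' := h'.two_le
  have hr := h.pos
  have hq : ∀ z : ℂ, ‖z‖ < r → ‖(fc d c)^[p] z - P d p c‖ ≤ C * (‖z‖ ^ 2 / r) :=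
    fun z hz => h.quad hd hp hz
  have hl : ∀ (n : ℕ) (z : ℂ), ‖z - P d (n * p) c‖ < r →
      ‖(fc d c)^[p] z - P d ((n + 1) * p) c‖ ≤ C * ‖z - P d (n * p) c‖ := fun n z hz => h.lip n hz
  obtain ⟨U, hUb, hcl, hr', hball, hdiam⟩ := h'
  have hb0 : ball (0 : ℂ) r' ⊆ U := by
    have := hball 0
    rwa [Nat.zero_mul, P_zero] at this
  have h00 : (0 : ℂ) ∈ U := hb0 (mem_ball_self hr')
  by_contra hcon
  push Not at hcon
  -- the radius of `U`
  have hbd : ∀ z ∈ U, ‖z‖ ≤ C' * r' := by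
    intro z hz
    obtain ⟨a, ha, ha'⟩ := hcl (subset_closure hz)
    obtain ⟨b, hb, hb'⟩ := hcl (subset_closure h00)
    have h1 := hdiam a ha b hb
    rwa [ha', hb', sub_zero] at h1
  obtain ⟨D, hD⟩ : ∃ D, D = sSup (norm '' U) := ⟨_, rfl⟩
  have hbdd : BddAbove (norm '' U) := ⟨C' * r', by rintro _ ⟨z, hz, rfl⟩; exact hbd z hz⟩
  have hDle : ∀ z ∈ U, ‖z‖ ≤ D := by
    intro z hz
    rw [hD]
    exact le_csSup hbdd ⟨z, hz, rfl⟩
  have hD2 : D ≤ C' * r' := by
    rw [hD]
    refine csSup_le ⟨_, 0, h00, rfl⟩ ?_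
    rintro _ ⟨z, hz, rfl⟩
    exact hbd z hz
  have hD0 : 0 < D := by
    have h1 : ((r' / 2 : ℝ) : ℂ) ∈ U := hb0 (by
      rw [mem_ball_zero_iff, Complex.norm_real, Real.norm_of_nonneg (by linarith)]
      linarith)
    have h2 := hDle _ h1
    rw [Complex.norm_real, Real.norm_of_nonneg (by linarith)] at h2
    linarith
  have hCm : ∀ j, (0 : ℝ) < C ^ j := fun j => pow_pos (by linarith) j
  have hkey : 2 * C ^ m * D < r := by
    calc 2 * C ^ m * D ≤ 2 * C ^ m * (C' * r') := by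
          have := hCm m
          gcongr
      _ = 2 * C' * C ^ m * r' := by ring
      _ < r := hcon
  have hC1 : (1 : ℝ) ≤ C ^ m := one_le_pow₀ (by linarith)
  have hDr : D < r := by nlinarith
  -- the orbits
  have horb : ∀ z ∈ U, ∀ j, j + 1 ≤ m →
      ‖(fc d c)^[(j + 1) * p] z - P d ((j + 1) * p) c‖ ≤ C ^ (j + 1) * (D ^ 2 / r) := by
    intro z hz j
    induction j with
    | zero =>
      intro _
      have h1 := hq z ((hDle z hz).trans_lt hDr)
      simp only [Nat.zero_add, one_mul, pow_one]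
      refine h1.trans ?_
      have := hDle z hz
      gcongr
    | succ j ih =>
      intro hj
      have h1 := ih (by omega)
      have h2 : C ^ (j + 1) * (D ^ 2 / r) < r := by
        have h3 : C ^ (j + 1) ≤ C ^ m := pow_le_pow_right₀ (by linarith) (by omega)
        calc C ^ (j + 1) * (D ^ 2 / r) ≤ C ^ m * (D ^ 2 / r) := by gcongr
          _ = C ^ m * D * (D / r) := by ring
          _ ≤ C ^ m * D * 1 := by
            have := hCm m
            gcongr
            exact (div_le_one hr).2 hDr.le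
          _ < r := by
            have := mul_pos (hCm m) hD0
            nlinarith
      have h3 := hl (j + 1) _ (h1.trans_lt h2)
      have h4 : (fc d c)^[(j + 1 + 1) * p] z = (fc d c)^[p] ((fc d c)^[(j + 1) * p] z) := by
        rw [← Function.iterate_add_apply]
        congr 1
        ring
      rw [h4]
      refine h3.trans ?_
      calc C * ‖(fc d c)^[(j + 1) * p] z - P d ((j + 1) * p) c‖ ≤ C * (C ^ (j + 1) * (D ^ 2 / r)) := by
            gcongr
        _ = C ^ (j + 1 + 1) * (D ^ 2 / r) := by ring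
  obtain ⟨k, hk⟩ : ∃ k, m = k + 1 := ⟨m - 1, by omega⟩
  have hend : ∀ z ∈ U, ‖(fc d c)^[m * p] z - P d (m * p) c‖ ≤ C ^ m * (D ^ 2 / r) := by
    intro z hz
    have := horb z hz k (by omega)
    rwa [← hk] at this
  have hD3 : D ≤ 2 * (C ^ m * (D ^ 2 / r)) := by
    rw [hD]
    refine csSup_le ⟨_, 0, h00, rfl⟩ ?_
    rintro _ ⟨z, hz, rfl⟩
    rw [← hD]
    obtain ⟨a, ha, ha'⟩ := hcl (subset_closure hz)
    obtain ⟨b, hb, hb'⟩ := hcl (subset_closure h00)
    have h1 := hend a ha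
    have h2 := hend b hb
    have h3 : z = ((fc d c)^[m * p] a - P d (m * p) c) - ((fc d c)^[m * p] b - P d (m * p) c) := by
      rw [ha', hb']
      ring
    have h4 := norm_sub_le ((fc d c)^[m * p] a - P d (m * p) c)
      ((fc d c)^[m * p] b - P d (m * p) c)
    rw [← h3] at h4
    linarith
  have h5 : 2 * (C ^ m * (D ^ 2 / r)) = D * (2 * C ^ m * D / r) := by ring
  have h6 : 2 * C ^ m * D / r < 1 := (div_lt_one hr).2 hkey
  rw [h5] at hD3
  nlinarith

end Pool.Agent.H79RN
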