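import Pool.Agent.H79RN.A

set_option autoImplicit false

/-!
# Nearby parameters, from level to level
-/

namespace Pool.Agent.H79RN

open Complex Filter Topology Set Metric
open Pool.Agent.H712R2 (P P_succ P_one P_zero fc continuous_P)
open Pool.Agent.Y736.RN

variable {d : ℕ} {c : ℂ} {p : ℕ} {C r ρ δ : ℝ}

/-- the parameters at distance at most `δ` from `c` are under control for `p` steps, on discs of radius
`ρ` about the points of the critical orbit with index divisible by `p` -/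
def Ctl (d : ℕ) (c : ℂ) (p : ℕ) (ρ δ : ℝ) : Prop :=
  0 < ρ ∧ 0 < δ ∧ ∀ (n : ℕ) (y : ℂ), ‖y - P d (n * p) c‖ ≤ ρ → ∀ c' : ℂ, ‖c' - c‖ ≤ δ →
    ‖(fc d c')^[p] y - (fc d c)^[p] y‖ ≤ ρ

theorem Ctl.schwarz (H : Ctl d c p ρ δ) {s : ℝ} (hs1 : s ≤ 1) {n : ℕ} {y : ℂ}
    (hy : ‖y - P d (n * p) c‖ ≤ ρ) {c' : ℂ} (hc' : ‖c' - c‖ ≤ s * δ) :
    ‖(fc d c')^[p] y - (fc d c)^[p] y‖ ≤ s * ρ := by
  obtain ⟨hρ, hδ, H⟩ := H
  have hle : ‖c' - c‖ ≤ δ := hc'.trans (by nlinarith)
  rcases hle.lt_or_eq with h1 | h1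
  · have h2 : MapsTo (fun c => (fc d c)^[p] y) (ball c δ) (closedBall ((fc d c)^[p] y) ρ) := by
      intro x hx
      rw [mem_closedBall, dist_eq_norm]
      rw [mem_ball, dist_eq_norm] at hx
      exact H n y hy x hx.le
    have h3 := Complex.dist_le_div_mul_dist_of_mapsTo_ball
      (diff_it_c d p y).differentiableOn h2 (z := c') (by rw [mem_ball, dist_eq_norm]; exact h1)
    rw [dist_eq_norm, dist_eq_norm] at h3
    refine h3.trans ?_
    calc ρ / δ * ‖c' - c‖ ≤ ρ / δ * (s * δ) := by gcongr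
      _ = s * ρ := by field_simp
  · have hs : 1 ≤ s := by
      rw [h1] at hc'
      by_contra hcon
      push Not at hcon
      nlinarith
    have := H n y hy c' hle
    nlinarith

/-- orbits which start near the critical orbit, for a nearby parameter -/
theorem shadow (h : Lv d c p C r) (hρr : ρ < r) (H : Ctl d c p ρ δ) {a s : ℝ} (ha : 0 ≤ a)
    (hs0 : 0 ≤ s) (hs1 : s ≤ 1) {m n : ℕ} (hm : C ^ m * (a + s * ρ) ≤ ρ) {y : ℂ}
    (hy : ‖y - P d (n * p) c‖ ≤ a) {c' : ℂ} (hc' : ‖c' - c‖ ≤ s * δ) :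
    ∀ j, j ≤ m → ‖(fc d c')^[j * p] y - P d ((n + j) * p) c‖ ≤ C ^ j * (a + s * ρ) - s * ρ := by
  have hC := h.two_le
  have hρ := H.1
  have hsρ : 0 ≤ s * ρ := mul_nonneg hs0 hρ.le
  intro j
  induction j with
  | zero =>
    intro _
    simp only [Nat.zero_mul, Function.iterate_zero, id_eq, Nat.add_zero, pow_zero, one_mul,
      add_sub_cancel_right]
    exact hy
  | succ j ih =>
    intro hj
    have h1 := ih (by omega)
    have h2 : C ^ j * (a + s * ρ) ≤ ρ := by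
      refine le_trans ?_ hm
      have : C ^ j ≤ C ^ m := pow_le_pow_right₀ (by linarith) (by omega)
      gcongr
    have h3 : ‖(fc d c')^[j * p] y - P d ((n + j) * p) c‖ ≤ ρ := by linarith
    have h4 := h.lip (n + j) (h3.trans_lt hρr)
    have h5 := H.schwarz hs1 h3 hc'
    have h6 : (fc d c')^[(j + 1) * p] y = (fc d c')^[p] ((fc d c')^[j * p] y) := by
      rw [← Function.iterate_add_apply]
      congr 1
      ring
    rw [h6, show n + (j + 1) = n + j + 1 by ring]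
    have h7 := norm_add_le ((fc d c')^[p] ((fc d c')^[j * p] y) - (fc d c)^[p] ((fc d c')^[j * p] y))
      ((fc d c)^[p] ((fc d c')^[j * p] y) - P d ((n + j + 1) * p) c)
    rw [sub_add_sub_cancel] at h7
    have h8 : C * ‖(fc d c')^[j * p] y - P d ((n + j) * p) c‖ ≤
        C * (C ^ j * (a + s * ρ) - s * ρ) := by gcongr
    have h9 : C * (C ^ j * (a + s * ρ) - s * ρ) + s * ρ ≤ C ^ (j + 1) * (a + s * ρ) - s * ρ := by
      rw [pow_succ]
      nlinarith
    linarith

/-- **The passage to the next level.** -/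
theorem Ctl.step (h : Lv d c p C r) (hρr : ρ < r) (H : Ctl d c p ρ δ) {m : ℕ} (hm : 1 ≤ m) {Λ : ℝ}
    (hΛ : 2 * C ≤ Λ) : Ctl d c (m * p) (ρ / Λ ^ m) (δ / Λ ^ (3 * m)) := by
  have hC := h.two_le
  have hρ := H.1
  have hδ := H.2.1
  have hΛ0 : 0 < Λ := by linarith
  have hCm : 0 < C ^ m := pow_pos (by linarith) m
  have hCm1 : 1 ≤ C ^ m := one_le_pow₀ (by linarith)
  have hΛm : 2 * C ^ m ≤ Λ ^ m := by
    calc 2 * C ^ m ≤ 2 ^ m * C ^ m := by
          gcongr
          exact le_self_pow₀ (by norm_num) (by omega)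
      _ = (2 * C) ^ m := (mul_pow _ _ _).symm
      _ ≤ Λ ^ m := by gcongr
  have hΛm0 : 0 < Λ ^ m := pow_pos hΛ0 m
  refine ⟨by positivity, by positivity, ?_⟩
  intro n y hy c' hc'
  rw [show n * (m * p) = (n * m) * p by ring] at hy
  obtain ⟨s, hs⟩ : ∃ s, s = 1 / (2 * C ^ m) := ⟨_, rfl⟩
  have hs0 : 0 < s := by rw [hs]; positivity
  have hs1 : s ≤ 1 := by
    rw [hs, div_le_one (by positivity)]
    linarith
  have ha : ρ / Λ ^ m ≤ s * ρ := by
    rw [hs, div_mul_eq_mul_div, one_mul]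
    gcongr
  have hcond : C ^ m * (s * ρ + s * ρ) ≤ ρ := by
    rw [hs]
    apply le_of_eq
    field_simp
    ring
  have hsρ : 0 ≤ s * ρ := by positivity
  have hall : ∀ x : ℂ, ‖x - c‖ ≤ s * δ →
      ‖(fc d x)^[m * p] y - P d ((n * m + m) * p) c‖ ≤ ρ := by
    intro x hx
    have h1 := shadow h hρr H hsρ hs0.le hs1 hcond (hy.trans ha) hx m le_rfl
    linarith
  have h0 := hall c (by rw [sub_self, norm_zero]; positivity)
  have h2 : MapsTo (fun x => (fc d x)^[m * p] y) (ball c (s * δ))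
      (closedBall ((fc d c)^[m * p] y) (2 * ρ)) := by
    intro x hx
    rw [mem_ball, dist_eq_norm] at hx
    rw [mem_closedBall, dist_eq_norm]
    have h3 := hall x hx.le
    have h4 := norm_sub_le ((fc d x)^[m * p] y - P d ((n * m + m) * p) c)
      ((fc d c)^[m * p] y - P d ((n * m + m) * p) c)
    rw [sub_sub_sub_cancel_right] at h4
    show ‖(fc d x)^[m * p] y - (fc d c)^[m * p] y‖ ≤ 2 * ρ
    linarith
  have hpow : Λ ^ (3 * m) = Λ ^ m * (Λ ^ m * Λ ^ m) := by
    rw [← pow_add, ← pow_add]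
    congr 1
    ring
  have hsmall : δ / Λ ^ (3 * m) < s * δ := by
    rw [hs, div_mul_eq_mul_div, one_mul, div_lt_div_iff_of_pos_left hδ (by positivity) (by positivity),
      hpow]
    nlinarith [mul_pos hΛm0 hΛm0]
  have h5 := Complex.dist_le_div_mul_dist_of_mapsTo_ball
    (diff_it_c d (m * p) y).differentiableOn h2 (z := c')
    (by rw [mem_ball, dist_eq_norm]; exact hc'.trans_lt hsmall)
  rw [dist_eq_norm, dist_eq_norm] at h5
  refine h5.trans ?_
  calc 2 * ρ / (s * δ) * ‖c' - c‖ ≤ 2 * ρ / (s * δ) * (δ / Λ ^ (3 * m)) := by gcongr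
    _ = (4 * C ^ m / (Λ ^ m * Λ ^ m)) * (ρ / Λ ^ m) := by
        rw [hs, hpow]
        field_simp
        ring
    _ ≤ 1 * (ρ / Λ ^ m) := by
        gcongr
        rw [div_le_one (by positivity)]
        nlinarith
    _ = ρ / Λ ^ m := one_mul _

/-- the first level -/
theorem exists_ctl (hb : ∀ n, ‖P d n c‖ ≤ 2) (p : ℕ) {ρ : ℝ} (hρ : 0 < ρ) :
    ∃ δ : ℝ, 0 < δ ∧ δ ≤ 1 ∧ Ctl d c p ρ δ := by
  have hcomp : IsCompact (closedBall c 1 ×ˢ closedBall (0 : ℂ) (2 + ρ)) :=
    (isCompact_closedBall c 1).prod (isCompact_closedBall (0 : ℂ) (2 + ρ))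
  have huc := hcomp.uniformContinuousOn_of_continuous (cont_it d p).continuousOn
  rw [Metric.uniformContinuousOn_iff] at huc
  obtain ⟨η, hη, huc⟩ := huc ρ hρ
  refine ⟨min (η / 2) 1, by positivity, min_le_right _ _, hρ, by positivity, ?_⟩
  intro n y hy c' hc'
  have hy2 : y ∈ closedBall (0 : ℂ) (2 + ρ) := by
    rw [mem_closedBall_zero_iff]
    have h1 := norm_add_le (y - P d (n * p) c) (P d (n * p) c)
    rw [sub_add_cancel] at h1
    have := hb (n * p)
    linarith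
  have h1 := huc (c', y) ⟨by
    rw [mem_closedBall, dist_eq_norm]
    exact hc'.trans (min_le_right _ _), hy2⟩ (c, y) ⟨mem_closedBall_self zero_le_one, hy2⟩ (by
    rw [Prod.dist_eq, dist_self, max_eq_left dist_nonneg, dist_eq_norm]
    refine hc'.trans_lt ((min_le_left _ _).trans_lt ?_)
    linarith)
  rw [dist_eq_norm] at h1
  exact h1.le

/-- the product of the factors of the levels before `k` -/
noncomputable def LL (C : ℕ → ℝ) (m : ℕ → ℕ) (k : ℕ) : ℝ :=
  ∏ j ∈ Finset.range k, (2 * C j * C (j + 1)) ^ m j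

theorem LL_succ (C : ℕ → ℝ) (m : ℕ → ℕ) (k : ℕ) :
    LL C m (k + 1) = LL C m k * (2 * C k * C (k + 1)) ^ m k := by
  unfold LL
  rw [Finset.prod_range_succ]

/-- **All levels.** -/
theorem levels (hd : 2 ≤ d) (hb : ∀ n, ‖P d n c‖ ≤ 2) {p m : ℕ → ℕ} {C r : ℕ → ℝ}
    (h : ∀ k, Lv d c (p k) (C k) (r k)) (hp0 : ∀ k, 1 ≤ p k) (hm : ∀ k, 1 ≤ m k)
    (hpm : ∀ k, p (k + 1) = m k * p k) :
    ∃ ρ δ : ℝ, 0 < ρ ∧ ρ ≤ 1 / 2 ∧ 0 < δ ∧ δ ≤ 1 ∧ ∀ k, ρ / LL C m k < r k ∧
      Ctl d c (p k) (ρ / LL C m k) (δ / LL C m k ^ 3) := by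
  obtain ⟨ρ, hρ⟩ : ∃ ρ, ρ = min (r 0 / 2) (1 / 2) := ⟨_, rfl⟩
  have hr0 := (h 0).pos
  have hρ0 : 0 < ρ := by rw [hρ]; positivity
  have hρ1 : ρ ≤ 1 / 2 := by rw [hρ]; exact min_le_right _ _
  have hρr : ρ ≤ r 0 / 2 := by rw [hρ]; exact min_le_left _ _
  obtain ⟨δ, hδ0, hδ1, hctl⟩ := exists_ctl hb (p 0) hρ0
  refine ⟨ρ, δ, hρ0, hρ1, hδ0, hδ1, ?_⟩
  have key : ∀ k, ρ / LL C m k ≤ r k / 2 ∧ Ctl d c (p k) (ρ / LL C m k) (δ / LL C m k ^ 3) := by
    intro k
    induction k with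
    | zero =>
      simp only [LL, Finset.range_zero, Finset.prod_empty, div_one, one_pow]
      exact ⟨hρr, hctl⟩
    | succ k ih =>
      obtain ⟨ih1, ih2⟩ := ih
      have hC := (h k).two_le
      have hC' := (h (k + 1)).two_le
      have hr := (h k).pos
      have hr' := (h (k + 1)).pos
      have hΛ0 : 0 < 2 * C k * C (k + 1) := by positivity
      have hsize := (h k).size hd (hp0 k) (hm k) (C' := C (k + 1)) (r' := r (k + 1)) (by
        rw [← hpm k]
        exact h (k + 1))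
      have hΛm : 2 * C (k + 1) * C k ^ m k ≤ (2 * C k * C (k + 1)) ^ m k := by
        have e : (2 * C k * C (k + 1)) ^ m k = 2 ^ m k * C (k + 1) ^ m k * C k ^ m k := by
          rw [mul_pow, mul_pow]
          ring
        rw [e]
        have hmk : m k ≠ 0 := by
          have := hm k
          omega
        have h1 : (2 : ℝ) ≤ 2 ^ m k := le_self_pow₀ (by norm_num) hmk
        have h2 : C (k + 1) ≤ C (k + 1) ^ m k := le_self_pow₀ (by linarith) hmk
        gcongr
      have hΛm0 : 0 < (2 * C k * C (k + 1)) ^ m k := pow_pos hΛ0 _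
      refine ⟨?_, ?_⟩
      · rw [LL_succ, ← div_div]
        calc ρ / LL C m k / (2 * C k * C (k + 1)) ^ m k ≤
            (r k / 2) / (2 * C k * C (k + 1)) ^ m k := by gcongr
          _ ≤ (2 * C (k + 1) * C k ^ m k * r (k + 1) / 2) / (2 * C k * C (k + 1)) ^ m k := by
            gcongr
          _ = (2 * C (k + 1) * C k ^ m k / (2 * C k * C (k + 1)) ^ m k) * (r (k + 1) / 2) := by ring
          _ ≤ 1 * (r (k + 1) / 2) := by
            gcongr
            exact (div_le_one hΛm0).2 hΛm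
          _ = r (k + 1) / 2 := one_mul _
      · have hlt : ρ / LL C m k < r k := by linarith
        have h1 := Ctl.step (h k) hlt ih2 (hm k) (Λ := 2 * C k * C (k + 1)) (by nlinarith)
        have e1 : ρ / LL C m (k + 1) = ρ / LL C m k / (2 * C k * C (k + 1)) ^ m k := by
          rw [LL_succ, div_div]
        have e2 : δ / LL C m (k + 1) ^ 3 = δ / LL C m k ^ 3 / (2 * C k * C (k + 1)) ^ (3 * m k) := by
          rw [LL_succ, mul_pow (LL C m k), ← pow_mul, Nat.mul_comm (m k) 3, div_div]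
        rw [hpm k, e1, e2]
        exact h1
  intro k
  have hr := (h k).pos
  exact ⟨by linarith [(key k).1], (key k).2⟩

/-- **The escape time of nearby parameters.** -/
theorem stay (hd : 2 ≤ d) (hb : ∀ n, ‖P d n c‖ ≤ 2) {p m : ℕ → ℕ} {C r : ℕ → ℝ}
    (h : ∀ k, Lv d c (p k) (C k) (r k)) (hp0 : ∀ k, 1 ≤ p k) (hm : ∀ k, 1 ≤ m k)
    (hpm : ∀ k, p (k + 1) = m k * p k) :
    ∃ δ : ℝ, 0 < δ ∧ δ ≤ 1 ∧ ∀ (k n : ℕ) (c' : ℂ), ‖c' - c‖ ≤ δ / (LL C m k ^ 3 * C k ^ n) →
      ∀ i, i ≤ n * p k → ‖P d i c'‖ ≤ 3 := by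
  obtain ⟨ρ, δ, hρ0, hρ1, hδ0, hδ1, H⟩ := levels hd hb h hp0 hm hpm
  have hL1 : ∀ k, 1 ≤ LL C m k := by
    intro k
    induction k with
    | zero => simp [LL]
    | succ k ih =>
      rw [LL_succ]
      have h1 := (h k).two_le
      have h2 := (h (k + 1)).two_le
      have h3 : (1 : ℝ) ≤ (2 * C k * C (k + 1)) ^ m k := one_le_pow₀ (by nlinarith)
      nlinarith
  refine ⟨δ, hδ0, hδ1, ?_⟩
  intro k n c' hc' i hi
  obtain ⟨hlt, hctl⟩ := H k
  have hC := (h k).two_le
  have hCn : 1 ≤ C k ^ n := one_le_pow₀ (by linarith)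
  have hLk := hL1 k
  obtain ⟨s, hs⟩ : ∃ s, s = 1 / C k ^ n := ⟨_, rfl⟩
  have hs0 : 0 < s := by rw [hs]; positivity
  have hs1 : s ≤ 1 := by
    rw [hs, div_le_one (by positivity)]
    exact hCn
  have h1 := shadow (h k) hlt hctl (a := 0) (s := s) le_rfl hs0.le hs1 (m := n) (n := 0) (by
      rw [hs, zero_add]
      apply le_of_eq
      field_simp) (y := 0) (by rw [Nat.zero_mul, P_zero, sub_self, norm_zero]) (c' := c') (by
      refine hc'.trans (le_of_eq ?_)
      rw [hs]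
      field_simp) n le_rfl
  have h2 : ‖P d (n * p k) c'‖ ≤ 3 := by
    have e : (fc d c')^[n * p k] 0 = P d (n * p k) c' := rfl
    rw [e, Nat.zero_add] at h1
    have h3 := norm_add_le (P d (n * p k) c' - P d (n * p k) c) (P d (n * p k) c)
    rw [sub_add_cancel] at h3
    have h4 := hb (n * p k)
    have h5 : C k ^ n * (0 + s * (ρ / LL C m k)) - s * (ρ / LL C m k) ≤ ρ / LL C m k := by
      have h6 : C k ^ n * (0 + s * (ρ / LL C m k)) = ρ / LL C m k := by
        rw [hs]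
        field_simp
        ring
      have h7 : 0 ≤ s * (ρ / LL C m k) := by positivity
      linarith
    have h6 : ρ / LL C m k ≤ 1 := by
      rw [div_le_one (by positivity)]
      linarith
    linarith
  have hc3 : ‖c'‖ ≤ 3 := by
    have h3 := norm_add_le (c' - c) c
    rw [sub_add_cancel] at h3
    have h4 := hb 1
    rw [P_one hd] at h4
    have h5 : δ / (LL C m k ^ 3 * C k ^ n) ≤ 1 := by
      rw [div_le_one (by positivity)]
      have h6 : (1 : ℝ) ≤ LL C m k ^ 3 := one_le_pow₀ hLk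
      nlinarith
    linarith
  by_contra hcon
  push Not at hcon
  have hgrow : ∀ j, 3 < ‖P d (i + j) c'‖ := by
    intro j
    induction j with
    | zero => exact hcon
    | succ j ih =>
      rw [show i + (j + 1) = i + j + 1 by ring, P_succ]
      have h3 : ‖P d (i + j) c'‖ ^ 2 ≤ ‖P d (i + j) c' ^ d‖ := by
        rw [norm_pow]
        exact pow_le_pow_right₀ (by linarith) hd
      have h4 := norm_sub_le (P d (i + j) c' ^ d + c') c'
      rw [add_sub_cancel_right] at h4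
      nlinarith
  have h3 := hgrow (n * p k - i)
  rw [show i + (n * p k - i) = n * p k by omega] at h3
  linarith

end Pool.Agent.H79RN
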