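import Pool.Agent.H79RN.B
import Pool.Agent.Y736.RN.H

set_option autoImplicit false

/-!
# Consequences of the control of nearby parameters
-/

namespace Pool.Agent.H79RN

open Complex Filter Topology Set Metric MeasureTheory Pool.Agent.H713R2
open N62a1eb23
open Pool.Agent.H712R2 (P P_succ P_one P_zero fc continuous_P)
open Pool.Agent.Y736.RN
open Pool.Agent.Y736.HD (Ang vol_Ang_ne ev_lt ev_pos GS)

variable {d : ℕ} {ψ : ℂ → ℂ} {c : ℂ}

theorem der_of_stay {δ : ℝ} (hδ : 0 < δ) {i : ℕ}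
    (h : ∀ c' : ℂ, ‖c' - c‖ ≤ δ → ‖P d i c'‖ ≤ 3) : ‖deriv (P d i) c‖ ≤ 3 / δ := by
  have hdiff : Differentiable ℂ (P d i) := diff_it_c d i 0
  apply Complex.norm_deriv_le_of_forall_mem_sphere_norm_le hδ hdiff.diffContOnCl
  intro z hz
  apply h
  rw [mem_sphere, dist_eq_norm] at hz
  exact hz.le

theorem green_of_stay (hd : 2 ≤ d) (hψ : IsExteriorMap (multibrotSet d) ψ) {δ : ℝ} {T : ℕ}
    (hT : 1 ≤ T) (h : ∀ c' : ℂ, ‖c' - c‖ ≤ δ → ∀ i, i ≤ T → ‖P d i c'‖ ≤ 3) {w : ℂ} (hw : 1 < ‖w‖)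
    (hwδ : ‖ψ w - c‖ ≤ δ) : Real.log ‖w‖ ≤ Real.log 4 / 2 ^ (T - 1) := by
  obtain ⟨n, rfl⟩ : ∃ n, T = n + 1 := ⟨T - 1, by omega⟩
  have h1 := h _ hwδ 1 (by omega)
  rw [P_one hd] at h1
  have h2 := h _ hwδ (n + 1) le_rfl
  have h3 := green_lower_R hd hψ hw (R := 3) (by norm_num) h1 h2
  have h4 := Real.log_le_log (by positivity) h3
  rw [Real.log_pow] at h4
  have h5 : 0 ≤ Real.log ‖w‖ := Real.log_nonneg hw.le
  have h6 : ((2 : ℝ) ^ n) ≤ (((d ^ n : ℕ)) : ℝ) := by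
    push_cast
    gcongr
    exact_mod_cast hd
  rw [Nat.add_sub_cancel, le_div_iff₀ (by positivity)]
  have h7 : (3 : ℝ) + 1 = 4 := by norm_num
  rw [h7] at h4
  calc Real.log ‖w‖ * 2 ^ n ≤ Real.log ‖w‖ * ((d ^ n : ℕ) : ℝ) := by gcongr
    _ = ((d ^ n : ℕ) : ℝ) * Real.log ‖w‖ := mul_comm _ _
    _ ≤ Real.log 4 := h4

theorem log_four : Real.log 4 = 2 * Real.log 2 := by
  rw [show (4 : ℝ) = 2 ^ 2 by norm_num, Real.log_pow]
  norm_num

theorem sup_of_stay (hd : 2 ≤ d) (hψ : IsExteriorMap (multibrotSet d) ψ) {δ : ℝ} {T : ℕ}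
    (hT : 1 ≤ T) (h : ∀ c' : ℂ, ‖c' - c‖ ≤ δ → ∀ i, i ≤ T → ‖P d i c'‖ ≤ 3) {r : ℝ} (hr : r ≤ δ) :
    sSup {x | ∃ w : ℂ, 1 < ‖w‖ ∧ ‖ψ w - c‖ ≤ r ∧ Real.log ‖w‖ = x} ≤ Real.log 4 / 2 ^ (T - 1) := by
  apply Real.sSup_le
  · rintro x ⟨w, h1, h2, rfl⟩
    exact green_of_stay hd hψ hT h h1 (h2.trans hr)
  · have : 0 ≤ Real.log 4 := Real.log_nonneg (by norm_num)
    positivity

theorem vol_of_stay (hd : 2 ≤ d) (hψ : IsExteriorMap (multibrotSet d) ψ)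
    (hc : c ∈ multibrotSet d) {δ : ℝ} {T : ℕ}
    (hT : 1 ≤ T) (h : ∀ c' : ℂ, ‖c' - c‖ ≤ δ → ∀ i, i ≤ T → ‖P d i c'‖ ≤ 3) {r : ℝ} (hr0 : 0 < r)
    (hr : 2 * r ≤ δ) : (volume (Ang ψ c r)).toReal ≤ 4 * Real.pi / 2 ^ (T - 1) := by
  have h4 : 0 ≤ Real.log 4 := Real.log_nonneg (by norm_num)
  have h1 := Pool.Agent.Y736.HG.vol_le hd hψ hc hr0 (S := Real.log 4 / 2 ^ (T - 1)) (by positivity)
    (fun w hw hw2 => green_of_stay hd hψ hT h hw (hw2.trans hr))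
  refine h1.trans (le_of_eq ?_)
  have h2 : 0 < Real.log 2 := Real.log_pos (by norm_num)
  rw [log_four]
  field_simp
  ring

/-- exponential control -/
theorem ev1 {a b K M : ℝ} (hab : b < a) (hb : 0 < b) (hK : 0 < K) :
    ∀ᶠ x : ℝ in atTop, M + x ^ b ≤ K * x ^ a := by
  have h1 := (tendsto_rpow_atTop (sub_pos.2 hab)).eventually_ge_atTop (2 / K)
  have h2 := (tendsto_rpow_atTop hb).eventually_ge_atTop M
  filter_upwards [h1, h2, eventually_gt_atTop 0] with x hx1 hx2 hx0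
  have h3 : x ^ a = x ^ (a - b) * x ^ b := by
    rw [← Real.rpow_add hx0]
    congr 1
    ring
  have h4 : 0 < x ^ b := Real.rpow_pos_of_pos hx0 _
  rw [h3]
  calc M + x ^ b ≤ 2 * x ^ b := by linarith
    _ = K * (2 / K) * x ^ b := by field_simp
    _ ≤ K * x ^ (a - b) * x ^ b := by gcongr
    _ = _ := by ring

/-- polynomial control of the nearby parameters -/
def Poly (d : ℕ) (c : ℂ) (η A₀ : ℝ) : Prop :=
  ∀ N : ℕ, 1 ≤ N → ∀ c' : ℂ, ‖c' - c‖ ≤ η * (N : ℝ) ^ (-A₀) → ∀ i, i ≤ N → ‖P d i c'‖ ≤ 3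

theorem Poly.small (hd : 2 ≤ d) (hψ : IsExteriorMap (multibrotSet d) ψ)
    (hc : c ∈ multibrotSet d) {η A₀ A : ℝ} (hη : 0 < η) (hA₀ : 0 < A₀) (hA : A₀ < A)
    (h : Poly d c η A₀) :
    ∀ᶠ r : ℝ in 𝓝[>] 0, (volume (Ang ψ c r)).toReal < Real.exp (-(r ^ (-(1 / A)))) ∧
      sSup {x | ∃ w : ℂ, 1 < ‖w‖ ∧ ‖ψ w - c‖ ≤ r ∧ Real.log ‖w‖ = x} <
        Real.exp (-(r ^ (-(1 / A)))) := by
  have hpi := Real.pi_pos
  have hlog2 : 0 < Real.log 2 := Real.log_pos (by norm_num)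
  have hA0' : 0 < A := hA₀.trans hA
  obtain ⟨K, hK⟩ : ∃ K, K = (η / 2) ^ (1 / A₀) * Real.log 2 := ⟨_, rfl⟩
  have hK0 : 0 < K := by rw [hK]; positivity
  have hab : 1 / A < 1 / A₀ := one_div_lt_one_div_of_lt hA₀ hA
  have h1 := ev1 (M := Real.log (32 * Real.pi)) hab (by positivity) hK0
  have h2 := (tendsto_rpow_atTop (show 0 < 1 / A₀ by positivity)).eventually_ge_atTop
    (1 / (η / 2) ^ (1 / A₀))
  have h3 := tendsto_inv_nhdsGT_zero (𝕜 := ℝ)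
  filter_upwards [h3.eventually h1, h3.eventually h2, self_mem_nhdsWithin] with r hr1 hr2 hr0
  have hr0 : 0 < r := hr0
  obtain ⟨y, hy⟩ : ∃ y, y = (η / (2 * r)) ^ (1 / A₀) := ⟨_, rfl⟩
  have hyx : y = (η / 2) ^ (1 / A₀) * r⁻¹ ^ (1 / A₀) := by
    rw [hy, ← Real.mul_rpow (by positivity) (by positivity)]
    congr 1
    field_simp
  have hy1 : 1 ≤ y := by
    rw [hyx]
    rw [div_le_iff₀ (by positivity)] at hr2
    linarith
  obtain ⟨N, hN⟩ : ∃ N, N = ⌊y⌋₊ := ⟨_, rfl⟩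
  have hN1 : 1 ≤ N := by
    rw [hN]
    exact Nat.le_floor (by exact_mod_cast hy1)
  have hNy : (N : ℝ) ≤ y := by
    rw [hN]
    exact Nat.floor_le (by linarith)
  have hyN : y < N + 1 := by
    rw [hN]
    exact Nat.lt_floor_add_one _
  have hN0 : (0 : ℝ) < N := by exact_mod_cast hN1
  have hrad : 2 * r ≤ η * (N : ℝ) ^ (-A₀) := by
    have h4 : (N : ℝ) ^ A₀ ≤ η / (2 * r) := by
      calc (N : ℝ) ^ A₀ ≤ y ^ A₀ := Real.rpow_le_rpow hN0.le hNy hA₀.le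
        _ = η / (2 * r) := by
          rw [hy, ← Real.rpow_mul (by positivity), one_div_mul_cancel hA₀.ne', Real.rpow_one]
    rw [Real.rpow_neg hN0.le]
    have h5 : 0 < (N : ℝ) ^ A₀ := Real.rpow_pos_of_pos hN0 _
    rw [le_div_iff₀ (by positivity)] at h4
    rw [← div_eq_mul_inv, le_div_iff₀ h5]
    linarith
  have hst : ∀ c' : ℂ, ‖c' - c‖ ≤ η * (N : ℝ) ^ (-A₀) → ∀ i, i ≤ N → ‖P d i c'‖ ≤ 3 := h N hN1
  have hv := vol_of_stay hd hψ hc hN1 hst hr0 hrad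
  have hs := sup_of_stay hd hψ hN1 hst (r := r) (by linarith)
  -- the bound
  have hpow : 1 / (2 : ℝ) ^ (N - 1) < 4 * Real.exp (-(K * r⁻¹ ^ (1 / A₀))) := by
    have e1 : K * r⁻¹ ^ (1 / A₀) = y * Real.log 2 := by
      rw [hyx, hK]
      ring
    have e2 : (2 : ℝ) ^ (N - 1) = Real.exp (((N : ℝ) - 1) * Real.log 2) := by
      have e3 : ((N - 1 : ℕ) : ℝ) = (N : ℝ) - 1 := by
        rw [Nat.cast_sub hN1, Nat.cast_one]
      rw [← e3, Real.exp_nat_mul, Real.exp_log (by norm_num)]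
    have e4 : (4 : ℝ) = Real.exp (2 * Real.log 2) := by
      rw [← log_four, Real.exp_log (by norm_num)]
    rw [e1, e2, one_div, ← Real.exp_neg, e4, ← Real.exp_add]
    apply Real.exp_lt_exp.2
    nlinarith
  have hfin : 16 * Real.pi * Real.exp (-(K * r⁻¹ ^ (1 / A₀))) ≤
      Real.exp (-(r ^ (-(1 / A)))) / 2 := by
    have e1 : r ^ (-(1 / A)) = r⁻¹ ^ (1 / A) := by
      rw [Real.rpow_neg hr0.le, Real.inv_rpow hr0.le]
    have e2 : 32 * Real.pi = Real.exp (Real.log (32 * Real.pi)) :=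
      (Real.exp_log (by positivity)).symm
    have e3 : 16 * Real.pi * Real.exp (-(K * r⁻¹ ^ (1 / A₀))) =
        (32 * Real.pi) * Real.exp (-(K * r⁻¹ ^ (1 / A₀))) / 2 := by ring
    rw [e3, e1]
    gcongr
    rw [e2, ← Real.exp_add]
    apply Real.exp_le_exp.2
    linarith
  have hexp : 0 < Real.exp (-(K * r⁻¹ ^ (1 / A₀))) := Real.exp_pos _
  have hexp' : 0 < Real.exp (-(r ^ (-(1 / A)))) := Real.exp_pos _
  constructor
  · calc (volume (Ang ψ c r)).toReal ≤ 4 * Real.pi / 2 ^ (N - 1) := hv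
      _ = 4 * Real.pi * (1 / (2 : ℝ) ^ (N - 1)) := by ring
      _ < 4 * Real.pi * (4 * Real.exp (-(K * r⁻¹ ^ (1 / A₀)))) := by gcongr
      _ = 16 * Real.pi * Real.exp (-(K * r⁻¹ ^ (1 / A₀))) := by ring
      _ ≤ Real.exp (-(r ^ (-(1 / A)))) / 2 := hfin
      _ < _ := by linarith
  · have hl4 : Real.log 4 ≤ 4 * Real.pi := by
      have h5 := Real.log_le_sub_one_of_pos (show (0 : ℝ) < 4 by norm_num)
      have h6 := Real.pi_gt_three
      linarith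
    calc _ ≤ Real.log 4 / 2 ^ (N - 1) := hs
      _ = Real.log 4 * (1 / (2 : ℝ) ^ (N - 1)) := by ring
      _ ≤ 4 * Real.pi * (1 / (2 : ℝ) ^ (N - 1)) := by gcongr
      _ < 4 * Real.pi * (4 * Real.exp (-(K * r⁻¹ ^ (1 / A₀)))) := by gcongr
      _ = 16 * Real.pi * Real.exp (-(K * r⁻¹ ^ (1 / A₀))) := by ring
      _ ≤ Real.exp (-(r ^ (-(1 / A)))) / 2 := hfin
      _ < _ := by linarith

theorem Poly.deriv_lt {η A₀ A : ℝ} (hη : 0 < η) (hA : A₀ < A) (h : Poly d c η A₀) :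
    ∀ᶠ n : ℕ in atTop, ‖deriv (P d n) c‖ < (n : ℝ) ^ A := by
  have h1 := ((tendsto_rpow_atTop (sub_pos.2 hA)).comp
    tendsto_natCast_atTop_atTop).eventually_gt_atTop (3 / η)
  filter_upwards [h1, eventually_ge_atTop 1] with n hn hn1
  have hn0 : (0 : ℝ) < n := by exact_mod_cast hn1
  have hp : 0 < (n : ℝ) ^ (-A₀) := Real.rpow_pos_of_pos hn0 _
  have h2 := der_of_stay (d := d) (c := c) (i := n) (show 0 < η * (n : ℝ) ^ (-A₀) by positivity)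
    (fun c' hc' => h n hn1 c' hc' n le_rfl)
  have h3 : (n : ℝ) ^ A = (n : ℝ) ^ (A - A₀) * (n : ℝ) ^ A₀ := by
    rw [← Real.rpow_add hn0]
    congr 1
    ring
  have h4 : 3 / (η * (n : ℝ) ^ (-A₀)) = 3 / η * (n : ℝ) ^ A₀ := by
    rw [Real.rpow_neg hn0.le]
    field_simp
  rw [h4] at h2
  refine h2.trans_lt ?_
  rw [h3]
  have h5 : 0 < (n : ℝ) ^ A₀ := Real.rpow_pos_of_pos hn0 _
  exact mul_lt_mul_of_pos_right hn h5

/-- the modulus of continuity at a point where the harmonic measure is exponentially small -/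
theorem loop_exp {A : ℝ} (hA : 0 < A)
    (hvol : ∀ᶠ r : ℝ in 𝓝[>] 0, (volume (Ang ψ c r)).toReal < Real.exp (-(r ^ (-(1 / A)))))
    {F : ℂ → ℂ} (hF : ContinuousOn F {w | 1 ≤ ‖w‖}) (hE : ∀ w, 1 < ‖w‖ → F w = ψ w) {ζ : ℂ}
    (hζ : ‖ζ‖ = 1) (hFζ : F ζ = c) :
    ∀ᶠ δ : ℝ in 𝓝[>] 0, ∃ ξ : ℂ, ‖ξ‖ = 1 ∧ ‖ξ - ζ‖ ≤ δ ∧
      (Real.log (1 / δ)) ^ (-A) ≤ ‖F ξ - F ζ‖ := by
  have hpi := Real.pi_pos
  -- the angle of `ζ`
  obtain ⟨θ₀, hθ₀, hθζ⟩ : ∃ θ₀ : ℝ, θ₀ ∈ Ioc 0 (2 * Real.pi) ∧ exp (θ₀ * I) = ζ := by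
    have h1 : exp ((arg ζ : ℝ) * I) = ζ := by
      have := Complex.norm_mul_exp_arg_mul_I ζ
      rwa [hζ, ofReal_one, one_mul] at this
    rcases le_or_gt (arg ζ) 0 with h2 | h2
    · refine ⟨arg ζ + 2 * Real.pi, ⟨?_, by linarith⟩, ?_⟩
      · have := Complex.neg_pi_lt_arg ζ
        linarith
      · push_cast
        rw [add_mul, Complex.exp_add, Complex.exp_two_pi_mul_I, mul_one]
        exact h1
    · exact ⟨arg ζ, ⟨h2, by linarith [Complex.arg_le_pi ζ]⟩, h1⟩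
  have hlog : Tendsto (fun δ : ℝ => Real.log (1 / δ)) (𝓝[>] 0) atTop := by
    have h1 := tendsto_neg_atBot_atTop.comp Real.tendsto_log_nhdsGT_zero
    refine h1.congr fun δ => ?_
    simp only [Function.comp_apply, one_div, Real.log_inv]
  have hlim : Tendsto (fun δ : ℝ => (Real.log (1 / δ)) ^ (-A)) (𝓝[>] 0) (𝓝[>] 0) := by
    rw [tendsto_nhdsWithin_iff]
    refine ⟨(tendsto_rpow_neg_atTop hA).comp hlog, ?_⟩
    filter_upwards [hlog.eventually_gt_atTop 0] with δ hδ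
    exact Real.rpow_pos_of_pos hδ _
  filter_upwards [ev_pos, ev_lt one_pos, ev_lt hθ₀.1, hlog.eventually_gt_atTop 0,
    hlim.eventually hvol] with δ hδ0 hδ1 hδ2 hδL hδ3
  by_contra hcon
  push Not at hcon
  obtain ⟨s, hs⟩ : ∃ s, s = (Real.log (1 / δ)) ^ (-A) := ⟨_, rfl⟩
  rw [← hs] at hcon hδ3
  have hsub : Ioc (θ₀ - δ) θ₀ ⊆ Ang ψ c s := by
    intro θ hθ
    refine ⟨⟨by linarith [hθ.1], hθ.2.trans hθ₀.2⟩, F (exp (θ * I)), ?_, ?_⟩
    · rw [mem_ball, dist_eq_norm, ← hFζ]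
      apply hcon
      · exact Complex.norm_exp_ofReal_mul_I θ
      · rw [← hθζ]
        have h1 : exp (θ * I) - exp (θ₀ * I) = exp (θ₀ * I) * (exp (I * ((θ - θ₀ : ℝ) : ℂ)) - 1) := by
          rw [mul_sub, ← Complex.exp_add, mul_one]
          congr 2
          push_cast
          ring
        rw [h1, norm_mul, Complex.norm_exp_ofReal_mul_I, one_mul]
        refine (Real.norm_exp_I_mul_ofReal_sub_one_le).trans ?_
        rw [Real.norm_eq_abs, abs_le]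
        constructor <;> linarith [hθ.1, hθ.2]
    · have h1 : ContinuousWithinAt F {w | 1 ≤ ‖w‖} (exp (θ * I)) :=
        hF _ (by
          show 1 ≤ ‖exp (θ * I)‖
          rw [Complex.norm_exp_ofReal_mul_I])
      have h2 : Tendsto (fun ρ : ℝ => (ρ : ℂ) * exp (θ * I)) (𝓝[>] 1)
          (𝓝[{w | 1 ≤ ‖w‖}] (exp (θ * I))) := by
        rw [tendsto_nhdsWithin_iff]
        refine ⟨?_, ?_⟩
        · have h3 : Continuous fun ρ : ℝ => (ρ : ℂ) * exp (θ * I) := by fun_prop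
          have h4 := (h3.tendsto 1).mono_left (nhdsWithin_le_nhds (s := Ioi (1 : ℝ)))
          simpa using h4
        · filter_upwards [self_mem_nhdsWithin] with ρ hρ
          have hρ' : 1 < ρ := hρ
          show 1 ≤ ‖(ρ : ℂ) * exp (θ * I)‖
          rw [norm_mul, Complex.norm_exp_ofReal_mul_I, mul_one, Complex.norm_real,
            Real.norm_of_nonneg (by linarith)]
          exact hρ'.le
      refine (h1.tendsto.comp h2).congr' ?_
      filter_upwards [self_mem_nhdsWithin] with ρ hρ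
      have hρ' : 1 < ρ := hρ
      apply hE
      rw [norm_mul, Complex.norm_exp_ofReal_mul_I, mul_one, Complex.norm_real,
        Real.norm_of_nonneg (by linarith)]
      exact hρ'
  have h1 : δ ≤ (volume (Ang ψ c s)).toReal := by
    have h2 := ENNReal.toReal_mono (vol_Ang_ne ψ c s) (measure_mono hsub)
    rw [Real.volume_Ioc, ENNReal.toReal_ofReal (by linarith)] at h2
    linarith
  have h2 := h1.trans_lt hδ3
  have h3 : s ^ (-(1 / A)) = Real.log (1 / δ) := by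
    rw [hs, ← Real.rpow_mul hδL.le, show -A * -(1 / A) = 1 by field_simp, Real.rpow_one]
  rw [h3, one_div, Real.log_inv, neg_neg, Real.exp_log hδ0] at h2
  exact absurd h2 (lt_irrefl _)

end Pool.Agent.H79RN
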