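import Pool.Agent.H79RN.C

set_option autoImplicit false

/-!
# Bounded type
-/

namespace Pool.Agent.H79RN

open Complex Filter Topology Set Metric MeasureTheory Pool.Agent.H713R2
open N62a1eb23
open Pool.Agent.H712R2 (P P_succ P_one P_zero fc continuous_P)
open Pool.Agent.Y736.RN

variable {d : ℕ} {c : ℂ}

theorem two_pow_le {p m : ℕ → ℕ} (hp0 : 1 ≤ p 0) (hm : ∀ k, 2 ≤ m k)
    (hpm : ∀ k, p (k + 1) = m k * p k) (k : ℕ) : 2 ^ k ≤ p k := by
  induction k with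
  | zero => simpa using hp0
  | succ k ih =>
    rw [hpm k, pow_succ, Nat.mul_comm (2 ^ k) 2]
    exact Nat.mul_le_mul (hm k) ih

theorem exists_level {p m : ℕ → ℕ} (hp0 : 1 ≤ p 0) (hm : ∀ k, 2 ≤ m k)
    (hpm : ∀ k, p (k + 1) = m k * p k) {B : ℕ} (hB : ∀ k, m k ≤ B) {N : ℕ} (hN : 1 ≤ N) :
    ∃ k, N ≤ p k ∧ p k ≤ max B (p 0) * N := by
  have hex : ∃ k, N ≤ p k := ⟨N, (Nat.lt_two_pow_self.le).trans (two_pow_le hp0 hm hpm N)⟩
  classical
  refine ⟨Nat.find hex, Nat.find_spec hex, ?_⟩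
  rcases Nat.eq_zero_or_pos (Nat.find hex) with h0 | h0
  · rw [h0]
    calc p 0 ≤ max B (p 0) := le_max_right _ _
      _ ≤ max B (p 0) * N := Nat.le_mul_of_pos_right _ hN
  · obtain ⟨k, hk⟩ : ∃ k, Nat.find hex = k + 1 := ⟨Nat.find hex - 1, by omega⟩
    have h1 : ¬ N ≤ p k := Nat.find_min hex (by omega)
    rw [hk, hpm k]
    exact Nat.mul_le_mul ((hB k).trans (le_max_left _ _)) (by omega)

/-- **Polynomial control for bounded type.** -/
theorem poly_of_type (hd : 2 ≤ d) (hb : ∀ n, ‖P d n c‖ ≤ 2) {p m : ℕ → ℕ} {C : ℝ} {r : ℕ → ℝ}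
    (h : ∀ k, Lv d c (p k) C (r k)) (hp0 : 1 ≤ p 0) (hm : ∀ k, 2 ≤ m k)
    (hpm : ∀ k, p (k + 1) = m k * p k) {B : ℕ} (hB : ∀ k, m k ≤ B) :
    ∃ η : ℝ, 0 < η ∧ Poly d c η (3 * B * Real.log (2 * C ^ 2) / Real.log 2) := by
  have hC := (h 0).two_le
  have hlog2 : 0 < Real.log 2 := Real.log_pos (by norm_num)
  have hpk : ∀ k, 1 ≤ p k := fun k => Nat.one_le_two_pow.trans (two_pow_le hp0 hm hpm k)
  obtain ⟨δ, hδ0, _, hst⟩ := stay (C := fun _ => C) hd hb h hpk (fun k => (by norm_num : 1 ≤ 2).trans (hm k)) hpm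
  obtain ⟨A₀, hA₀⟩ : ∃ A₀, A₀ = 3 * B * Real.log (2 * C ^ 2) / Real.log 2 := ⟨_, rfl⟩
  rw [← hA₀]
  have hlogC : 0 ≤ Real.log (2 * C ^ 2) := Real.log_nonneg (by nlinarith)
  have hA0 : 0 ≤ A₀ := by rw [hA₀]; positivity
  obtain ⟨B', hB'⟩ : ∃ B', B' = max B (p 0) := ⟨_, rfl⟩
  have hB1 : (1 : ℝ) ≤ B' := by
    have : 1 ≤ B' := by rw [hB']; exact hp0.trans (le_max_right _ _)
    exact_mod_cast this
  have hLL : ∀ k, LL (fun _ => C) m k ≤ (2 * C ^ 2) ^ (B * k) := by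
    intro k
    induction k with
    | zero => simp [LL]
    | succ k ih =>
      rw [LL_succ, Nat.mul_succ, pow_add]
      have e : 2 * C * C = 2 * C ^ 2 := by ring
      rw [e]
      have h1 : (2 * C ^ 2) ^ m k ≤ (2 * C ^ 2) ^ B := pow_le_pow_right₀ (by nlinarith) (hB k)
      have h2 : 0 ≤ (2 * C ^ 2) ^ m k := by positivity
      gcongr
  have hLpos : ∀ k, 0 < LL (fun _ => C) m k := by
    intro k
    unfold LL
    apply Finset.prod_pos
    intro j _
    positivity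
  refine ⟨δ / (C * (B' : ℝ) ^ A₀), by positivity, ?_⟩
  intro N hN c' hc' i hi
  obtain ⟨k, hk1, hk2⟩ := exists_level hp0 hm hpm hB hN
  rw [← hB'] at hk2
  have hN0 : (0 : ℝ) < N := by exact_mod_cast hN
  have hpk0 : (0 : ℝ) < p k := by exact_mod_cast hpk k
  apply hst k 1 c' ?_ i (by rw [one_mul]; exact hi.trans hk1)
  refine hc'.trans ?_
  have h1 : LL (fun _ => C) m k ^ 3 ≤ (p k : ℝ) ^ A₀ := by
    have h2 : Real.log (2 ^ k) ≤ Real.log (p k) := by
      apply Real.log_le_log (by positivity)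
      exact_mod_cast two_pow_le hp0 hm hpm k
    rw [Real.log_pow] at h2
    calc LL (fun _ => C) m k ^ 3 ≤ ((2 * C ^ 2) ^ (B * k)) ^ 3 := by
          have := (hLpos k).le
          gcongr
          exact hLL k
      _ = Real.exp (3 * B * k * Real.log (2 * C ^ 2)) := by
          rw [← pow_mul, ← Real.exp_log (show 0 < 2 * C ^ 2 by positivity), ← Real.exp_nat_mul,
            Real.log_exp]
          congr 1
          push_cast
          ring
      _ ≤ Real.exp (A₀ * Real.log (p k)) := by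
          apply Real.exp_le_exp.2
          calc 3 * B * k * Real.log (2 * C ^ 2) = A₀ * (k * Real.log 2) := by
                rw [hA₀]
                field_simp
            _ ≤ A₀ * Real.log (p k) := by gcongr
      _ = (p k : ℝ) ^ A₀ := by
          rw [Real.rpow_def_of_pos hpk0, mul_comm]
  have h3 : (p k : ℝ) ^ A₀ ≤ (B' : ℝ) ^ A₀ * (N : ℝ) ^ A₀ := by
    rw [← Real.mul_rpow (by linarith) hN0.le]
    apply Real.rpow_le_rpow hpk0.le _ hA0
    exact_mod_cast hk2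
  have hNA : 0 < (N : ℝ) ^ A₀ := Real.rpow_pos_of_pos hN0 _
  have hBA : 0 < (B' : ℝ) ^ A₀ := Real.rpow_pos_of_pos (by linarith) _
  have hL3 : 0 < LL (fun _ => C) m k ^ 3 := pow_pos (hLpos k) 3
  calc δ / (C * (B' : ℝ) ^ A₀) * (N : ℝ) ^ (-A₀) = δ / (C * ((B' : ℝ) ^ A₀ * (N : ℝ) ^ A₀)) := by
        rw [Real.rpow_neg hN0.le]
        field_simp
    _ ≤ δ / (C * LL (fun _ => C) m k ^ 3) := by
        gcongr
        exact h1.trans h3
    _ = δ / (LL (fun _ => C) m k ^ 3 * C ^ 1) := by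
        rw [pow_one, mul_comm]

end Pool.Agent.H79RN
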